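import Pool.Agent.H31.CRG.TR
import Pool.Agent.H65.CRG.TN
import Pool.Agent.H59.CV.SMO
import Pool.Agent.H37.CV.OR
import Pool.Agent.H3.CV.GC
import Pool.Agent.H86.CV.DV

/-!
# Module OP: the second moment opened
-/

set_option autoImplicit false

open NumberField NumberField.InfinitePlace Complex Filter Topology MeasureTheory

namespace Pool.Agent.H35.CRG

open Pool.Agent.H28.RC Pool.Agent.H25.HK Pool.Agent.H37.CV Pool.Agent.H65.CRZ Pool.Agent.H65.CRG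
open Pool.Agent.H59.CV (NB one_le_nm nm_mul summable_nm3 norm_le_one norm_cc_le inner_sum idS_ne idS_sup nS_pos
  reparam XX YY sup_mul of_sup_mul mul_ne)

theorem coef {s₁ s₂ : ℂ} {a b g S T t v u : ℝ} (ha : 0 < a) (hb : 0 < b) (hg : 0 < g)
    (hS : 0 < S) (hT : 0 < T) (ht : 0 < t) (hu : S * b = g * u) (hv : T * a = g * v) :
    ((v * t : ℝ) : ℂ) ^ (-s₁) * ((u * t : ℝ) : ℂ) ^ (-s₂) =
      (a : ℂ) ^ (-s₁) * (b : ℂ) ^ (-s₂) * (((T / g : ℝ) : ℂ) ^ (-s₁) *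
        ((S / g : ℝ) : ℂ) ^ (-s₂)) * (t : ℂ) ^ (-(s₁ + s₂)) := by
  have h1 : v * t = a * (T / g) * t := by
    have : v = a * (T / g) := by
      field_simp
      linarith
    rw [this]
  have h2 : u * t = b * (S / g) * t := by
    have : u = b * (S / g) := by
      field_simp
      linarith
    rw [this]
  have h3 : (t : ℂ) ^ (-(s₁ + s₂)) = (t : ℂ) ^ (-s₁) * (t : ℂ) ^ (-s₂) := by
    rw [neg_add, Complex.cpow_add _ _ (by exact_mod_cast ht.ne')]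
  rw [h1, h2, h3]
  rw [Complex.ofReal_mul (a * (T / g)) t, Complex.ofReal_mul (b * (S / g)) t,
    Complex.mul_cpow_ofReal_nonneg (by positivity) ht.le,
    Complex.mul_cpow_ofReal_nonneg (by positivity) ht.le,
    Complex.ofReal_mul a, Complex.ofReal_mul b,
    Complex.mul_cpow_ofReal_nonneg ha.le (by positivity),
    Complex.mul_cpow_ofReal_nonneg hb.le (by positivity)]
  ring

section
variable {K : Type} [Field K] [NumberField K]

/-- the terms of the sum -/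
noncomputable def FF (Q : ℝ) (s₁ s₂ : ℂ) (p : NI K × NI K) : ℂ :=
  (((nm p.1.1 : ℝ) : ℂ) ^ (-s₁) * ((nm p.2.1 : ℝ) : ℂ) ^ (-s₂)) *
    Vn (nrComplexPlaces K) s₁ s₂ (nm p.1.1 * nm p.2.1 / Q)

theorem norm_cpow_le {x : ℝ} (hx : 1 ≤ x) {s : ℂ} (hs : 0 ≤ s.re) : ‖(x : ℂ) ^ (-s)‖ ≤ 1 := by
  rw [Complex.norm_cpow_eq_rpow_re_of_pos (by linarith), Complex.neg_re]
  exact Real.rpow_le_one_of_one_le_of_nonpos hx (by linarith)

theorem summable_FF (hVG : Pool.Agent.H65.CRG.T_VG) {C : ℝ} (h : NB K C) {Q : ℝ} (hQ : 0 < Q) {s₁ s₂ : ℂ}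
    (h1 : 3 / 8 ≤ s₁.re) (h1' : s₁.re ≤ 5 / 8) (h2 : 3 / 8 ≤ s₂.re) (h2' : s₂.re ≤ 5 / 8) :
    Summable (fun p : NI K × NI K => ‖FF Q s₁ s₂ p‖) := by
  obtain ⟨D₀, B, hD0, hB, hD⟩ := hVG (nrComplexPlaces K) 3 (by norm_num)
  obtain ⟨D, hDd⟩ : ∃ D, D = D₀ * (1 + |s₁.im| + |s₂.im|) ^ B := ⟨_, rfl⟩
  have h3 : Summable (fun p : NI K × NI K => ((nm p.1.1) ^ 3)⁻¹ * ((nm p.2.1) ^ 3)⁻¹) :=
    (summable_nm3 h).mul_of_nonneg (summable_nm3 h)
      (fun t => by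
        have := one_le_nm t.2
        simp only [Pi.zero_apply]
        positivity)
      (fun t => by
        have := one_le_nm t.2
        simp only [Pi.zero_apply]
        positivity)
  refine (h3.mul_left (D * Q ^ 3)).of_nonneg_of_le (fun _ => norm_nonneg _) fun p => ?_
  have ha := one_le_nm p.1.2
  have hb := one_le_nm p.2.2
  have ha0 : 0 < nm p.1.1 := by linarith
  have hb0 : 0 < nm p.2.1 := by linarith
  have hx : 0 < nm p.1.1 * nm p.2.1 / Q := by positivity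
  have h4 := (hD s₁ s₂ (by linarith) (by linarith) (by linarith) (by linarith) _ hx).2.2
  rw [← hDd] at h4
  have h5 : (nm p.1.1 * nm p.2.1 / Q) ^ (-(3 : ℝ)) =
      Q ^ 3 * (((nm p.1.1) ^ 3)⁻¹ * ((nm p.2.1) ^ 3)⁻¹) := by
    rw [Real.rpow_neg hx.le, show (3 : ℝ) = ((3 : ℕ) : ℝ) by norm_num, Real.rpow_natCast]
    field_simp
  rw [h5] at h4
  have h6 := norm_cpow_le ha (s := s₁) (by linarith)
  have h7 := norm_cpow_le hb (s := s₂) (by linarith)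
  unfold FF
  rw [norm_mul, norm_mul]
  calc ‖((nm p.1.1 : ℝ) : ℂ) ^ (-s₁)‖ * ‖((nm p.2.1 : ℝ) : ℂ) ^ (-s₂)‖ *
        ‖Vn (nrComplexPlaces K) s₁ s₂ (nm p.1.1 * nm p.2.1 / Q)‖
      ≤ 1 * ‖Vn (nrComplexPlaces K) s₁ s₂ (nm p.1.1 * nm p.2.1 / Q)‖ :=
        mul_le_mul_of_nonneg_right (mul_le_one₀ h6 (norm_nonneg _) h7) (norm_nonneg _)
    _ ≤ _ := by
      rw [one_mul]
      exact h4.trans (le_of_eq (by ring))

theorem summable_cc (hVG : Pool.Agent.H65.CRG.T_VG) {C : ℝ} (hN : NB K C) {Q : ℝ} (hQ : 0 < Q) {s₁ s₂ : ℂ}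
    (h1 : 3 / 8 ≤ s₁.re) (h1' : s₁.re ≤ 5 / 8) (h2 : 3 / 8 ≤ s₂.re) (h2' : s₂.re ≤ 5 / 8)
    {m : Ideal (𝓞 K)} {ψ : Ideal (𝓞 K) → ℂ} (h : PC m ψ) (S T : Ideal (𝓞 K)) :
    Summable (fun p : NI K × NI K => FF Q s₁ s₂ p * Pool.Agent.H59.CV.cc ψ S T p) := by
  refine Summable.of_norm ((summable_FF hVG hN hQ h1 h1' h2 h2').of_nonneg_of_le
    (fun _ => norm_nonneg _) fun p => ?_)
  rw [norm_mul]
  calc ‖FF Q s₁ s₂ p‖ * ‖Pool.Agent.H59.CV.cc ψ S T p‖ ≤ ‖FF Q s₁ s₂ p‖ * 1 :=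
        mul_le_mul_of_nonneg_left (norm_cc_le h S T p) (norm_nonneg _)
    _ = _ := mul_one _

theorem open_psi {m : Ideal (𝓞 K)} {ψ : Ideal (𝓞 K) → ℂ} (h : PC m ψ) (Q M : ℝ) (s₁ s₂ : ℂ)
    (c₁ c₂ : Finset (PrI K) → ℂ) :
    A2n Q s₁ s₂ ψ * (pol M c₁ ψ * pol M c₂ (fun I => (starRingEnd ℂ) (ψ I))) =
      ∑ S ∈ DM K M, ∑ T ∈ DM K M,
        c₁ S * c₂ T * ∑' p : NI K × NI K, FF Q s₁ s₂ p * Pool.Agent.H59.CV.cc ψ (idS S) (idS T) p := by
  unfold pol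
  rw [Finset.sum_mul_sum, Finset.mul_sum]
  refine Finset.sum_congr rfl fun S _ => ?_
  rw [Finset.mul_sum]
  refine Finset.sum_congr rfl fun T _ => ?_
  have h4 : A2n Q s₁ s₂ ψ * (ψ (idS S) * (starRingEnd ℂ) (ψ (idS T))) =
      ∑' p : NI K × NI K, FF Q s₁ s₂ p * Pool.Agent.H59.CV.cc ψ (idS S) (idS T) p := by
    unfold A2n
    rw [← tsum_mul_right]
    refine tsum_congr fun p => ?_
    unfold FF Pool.Agent.H59.CV.cc
    rw [h.mul, h.mul, map_mul]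
    ring
  rw [← h4]
  ring

end

theorem pf_OP (h1 : Pool.Agent.H65.CRG.T_VG) : Pool.Agent.H31.CRG.T_OP := by
  classical
  have hVG := h1
  clear h1
  intro K _ _ _ m d Q M s₁ s₂ c₁ c₂ hm hmd hQ hM hP hs1 hs1' hs2 hs2'
  obtain ⟨C, hC⟩ := (Pool.Agent.H86.CV.pf_DV K).2
  have hNB : NB K C := hC
  obtain ⟨hfin, hnc, hor⟩ := Pool.Agent.H37.CV.pf_OR K m d hm hmd
  -- the parametrisation
  have hφ : ∀ S T : Finset (PrI K), ∃ φ : YY m d → NI K × NI K, S ∈ DM K M → T ∈ DM K M →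
      Function.Injective φ ∧ Set.range φ = XX m d (idS S) (idS T) ∧
      ∀ y, c₁ S * c₂ T * FF Q s₁ s₂ (φ y) =
        ((nm y.1.1.1 : ℝ) : ℂ) ^ (-s₁) * ((nm y.1.1.2 : ℝ) : ℂ) ^ (-s₂) *
          (c₁ S * c₂ T * (((nS np T / gg np (pf y.1.1.1) (pf y.1.1.2) S T : ℝ) : ℂ) ^ (-s₁) *
            ((nS np S / gg np (pf y.1.1.1) (pf y.1.1.2) S T : ℝ) : ℂ) ^ (-s₂)) *
            (((nm y.2.1 : ℝ) : ℂ) ^ (-(s₁ + s₂)) *
              Vn (nrComplexPlaces K) s₁ s₂ (nm y.2.1 ^ 2 /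
                (Q * gg np (pf y.1.1.1) (pf y.1.1.2) S T ^ 2 /
                (nS np S * nS np T * (nm y.1.1.1 * nm y.1.1.2)))))) := by
    intro S T
    by_cases hST : S ∈ DM K M ∧ T ∈ DM K M
    · obtain ⟨hS, hT⟩ := hST
      have h1 : ∀ p : CP m d, ∃ g u v : Ideal (𝓞 K), g ≠ ⊥ ∧ idS S * p.1.2 = g * u ∧
          idS T * p.1.1 = g * v ∧ u ⊔ v = ⊤ ∧ nm g = gg np (pf p.1.1) (pf p.1.2) S T := fun p =>
        ((Pool.Agent.H3.CV.pf_GC K S T).2 p.1.1 p.1.2 p.2.1 p.2.2.1 p.2.2.2.1).2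
      choose G U V hG hU hV hUV hg using h1
      obtain ⟨φ, h2, h3, h4⟩ := reparam (idS_ne S) (idS_ne T) (idS_sup hP hS) (idS_sup hP hT)
        G U V hG hU hV hUV
      refine ⟨φ, fun _ _ => ⟨h2, h3, fun y => ?_⟩⟩
      obtain ⟨p, t⟩ := y
      have hI := one_le_nm p.2.1
      have hJ := one_le_nm p.2.2.1
      have ht := one_le_nm t.2.1
      have hgp := one_le_nm (hG p)
      have hS' : nm (idS S) = nS np S := (Pool.Agent.H3.CV.pf_GC K S T).1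
      have hT' : nm (idS T) = nS np T := (Pool.Agent.H3.CV.pf_GC K T S).1
      have hSp := nS_pos S
      have hTp := nS_pos T
      have hVn : V p ≠ ⊥ := by
        intro h
        have h1 := hV p
        rw [h, Ideal.mul_bot] at h1
        exact mul_ne (idS_ne T) p.2.1 h1
      have hUn : U p ≠ ⊥ := by
        intro h
        have h1 := hU p
        rw [h, Ideal.mul_bot] at h1
        exact mul_ne (idS_ne S) p.2.2.1 h1
      have hVp := one_le_nm hVn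
      have hUp := one_le_nm hUn
      have e1 : nS np S * nm p.1.2 = nm (G p) * nm (U p) := by
        rw [← hS', ← nm_mul, ← nm_mul, hU p]
      have e2 : nS np T * nm p.1.1 = nm (G p) * nm (V p) := by
        rw [← hT', ← nm_mul, ← nm_mul, hV p]
      have e3 : nm (V p) * nm (U p) * nm (G p) ^ 2 =
          nS np S * nS np T * (nm p.1.1 * nm p.1.2) := by
        calc nm (V p) * nm (U p) * nm (G p) ^ 2 =
            (nm (G p) * nm (V p)) * (nm (G p) * nm (U p)) := by ring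
          _ = (nS np T * nm p.1.1) * (nS np S * nm p.1.2) := by rw [← e1, ← e2]
          _ = _ := by ring
      have f1 : nm (φ ⟨p, t⟩).1.1 = nm (V p) * nm t.1 := by
        rw [(h4 ⟨p, t⟩).1, nm_mul]
      have f2 : nm (φ ⟨p, t⟩).2.1 = nm (U p) * nm t.1 := by
        rw [(h4 ⟨p, t⟩).2, nm_mul]
      have hc := coef (s₁ := s₁) (s₂ := s₂) (show 0 < nm p.1.1 by linarith)
        (show 0 < nm p.1.2 by linarith) (show 0 < nm (G p) by linarith) hSp hTp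
        (show 0 < nm t.1 by linarith) e1 e2
      have hv : nm (V p) * nm t.1 * (nm (U p) * nm t.1) / Q = nm t.1 ^ 2 /
          (Q * nm (G p) ^ 2 / (nS np S * nS np T * (nm p.1.1 * nm p.1.2))) := by
        rw [← e3]
        have h5 : nm (G p) ≠ 0 := by linarith
        have h6 : nm (V p) ≠ 0 := by linarith
        have h7 : nm (U p) ≠ 0 := by linarith
        field_simp
      unfold FF
      simp only [f1, f2]
      rw [hv, ← hg p, hc]
      ring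
    · refine ⟨fun _ => (⟨⊤, top_ne_bot⟩, ⟨⊤, top_ne_bot⟩), fun h1 h2 => absurd ⟨h1, h2⟩ hST⟩
  choose φ hφ using hφ
  -- summability
  have hsF := summable_FF (K := K) hVG hNB hQ hs1 hs1' hs2 hs2'
  have hsum : ∀ S ∈ DM K M, ∀ T ∈ DM K M, Summable (fun y : YY m d => ‖FF Q s₁ s₂ (φ S T y)‖) :=
    fun S hS T hT => hsF.comp_injective (hφ S T hS hT).1
  have hDd : ∀ p : CP m d, Dn m Q M s₁ s₂ c₁ c₂ p.1.1 p.1.2 = ∑ S ∈ DM K M, ∑ T ∈ DM K M,
      c₁ S * c₂ T * ∑' t : {t : Ideal (𝓞 K) // t ≠ ⊥ ∧ t ⊔ m = ⊤}, FF Q s₁ s₂ (φ S T ⟨p, t⟩) := by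
    intro p
    unfold Dn
    rw [Finset.mul_sum]
    refine Finset.sum_congr rfl fun S hS => ?_
    rw [Finset.mul_sum]
    refine Finset.sum_congr rfl fun T hT => ?_
    unfold Sn
    rw [← tsum_mul_left, ← tsum_mul_left, ← tsum_mul_left]
    refine tsum_congr fun t => ?_
    exact ((hφ S T hS hT).2.2 ⟨p, t⟩).symm
  have hsDn : ∀ S ∈ DM K M, ∀ T ∈ DM K M, Summable (fun p : CP m d => ‖c₁ S * c₂ T *
      ∑' t : {t : Ideal (𝓞 K) // t ≠ ⊥ ∧ t ⊔ m = ⊤}, FF Q s₁ s₂ (φ S T ⟨p, t⟩)‖) := by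
    intro S hS T hT
    have h1 := (hsum S hS T hT).sigma.mul_left ‖c₁ S * c₂ T‖
    refine h1.of_nonneg_of_le (fun _ => norm_nonneg _) fun p => ?_
    rw [norm_mul]
    exact mul_le_mul_of_nonneg_left
      (norm_tsum_le_tsum_norm ((hsum S hS T hT).sigma_factor p)) (norm_nonneg _)
  refine ⟨?_, ?_⟩
  · have h1 : Summable (fun p : CP m d => ∑ S ∈ DM K M, ∑ T ∈ DM K M, ‖c₁ S * c₂ T *
        ∑' t : {t : Ideal (𝓞 K) // t ≠ ⊥ ∧ t ⊔ m = ⊤}, FF Q s₁ s₂ (φ S T ⟨p, t⟩)‖) :=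
      summable_sum fun S hS => summable_sum fun T hT => hsDn S hS T hT
    refine h1.of_nonneg_of_le (fun _ => norm_nonneg _) fun p => ?_
    rw [hDd p]
    exact (norm_sum_le _ _).trans (Finset.sum_le_sum fun S _ => norm_sum_le _ _)
  · -- the sum of `Dd`
    have hR : ∑' p : CP m d, Dn m Q M s₁ s₂ c₁ c₂ p.1.1 p.1.2 = ∑ S ∈ DM K M, ∑ T ∈ DM K M,
        c₁ S * c₂ T * ∑' y : YY m d, FF Q s₁ s₂ (φ S T y) := by
      rw [tsum_congr hDd, Summable.tsum_finsetSum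
        (fun S hS => summable_sum fun T hT => (hsDn S hS T hT).of_norm)]
      refine Finset.sum_congr rfl fun S hS => ?_
      rw [Summable.tsum_finsetSum (fun T hT => (hsDn S hS T hT).of_norm)]
      refine Finset.sum_congr rfl fun T hT => ?_
      rw [tsum_mul_left]
      congr 1
      have h1 : Summable (fun y : YY m d => FF Q s₁ s₂ (φ S T y)) := (hsum S hS T hT).of_norm
      exact (h1.tsum_sigma' fun p => h1.sigma_factor p).symm
    rw [hR, finsum_mem_eq_finite_toFinset_sum _ hfin]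
    have hpc : ∀ ψ ∈ hfin.toFinset, PC m ψ := fun ψ hψ => (hfin.mem_toFinset.1 hψ).1
    rw [Finset.sum_congr rfl fun ψ hψ => open_psi (hpc ψ hψ) Q M s₁ s₂ c₁ c₂, Finset.sum_comm,
      Finset.mul_sum]
    refine Finset.sum_congr rfl fun S hS => ?_
    rw [Finset.sum_comm, Finset.mul_sum]
    refine Finset.sum_congr rfl fun T hT => ?_
    rw [← Finset.mul_sum]
    have h1 : ∑ ψ ∈ hfin.toFinset, ∑' p : NI K × NI K, FF Q s₁ s₂ p * Pool.Agent.H59.CV.cc ψ (idS S) (idS T) p =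
        nc m d * ∑' y : YY m d, FF Q s₁ s₂ (φ S T y) := by
      rw [← Summable.tsum_finsetSum (fun ψ hψ => summable_cc hVG hNB hQ hs1 hs1' hs2 hs2' (hpc ψ hψ) _ _)]
      obtain ⟨hinj, hran, _⟩ := hφ S T hS hT
      have h2 : ∀ p : NI K × NI K, ∑ ψ ∈ hfin.toFinset, FF Q s₁ s₂ p * Pool.Agent.H59.CV.cc ψ (idS S) (idS T) p =
          Set.indicator (XX m d (idS S) (idS T)) (fun p => (nc m d : ℂ) * FF Q s₁ s₂ p) p := by
        intro p
        rw [← Finset.mul_sum]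
        have h3 := inner_sum hfin hor (idS_ne S) (idS_ne T) (idS_sup hP hS) (idS_sup hP hT) p
        by_cases hp : p ∈ XX m d (idS S) (idS T)
        · rw [h3.1 hp, Set.indicator_of_mem hp]
          ring
        · rw [h3.2 hp, Set.indicator_of_notMem hp, mul_zero]
      rw [tsum_congr h2, ← hinj.tsum_eq (f := Set.indicator (XX m d (idS S) (idS T))
        (fun p => (nc m d : ℂ) * FF Q s₁ s₂ p)) (by
          rw [hran]
          exact Set.support_indicator_subset), ← tsum_mul_left]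
      refine tsum_congr fun y => ?_
      rw [Set.indicator_of_mem]
      rw [← hran]
      exact ⟨y, rfl⟩
    rw [h1]
    ring

end Pool.Agent.H35.CRG
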